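import Pool.Agent.H752.PL.Stubs2
import Pool.Agent.H620R2.Gauge.Blk
import Pool.Agent.H620R2.Gauge.S
import Pool.Agent.H591R3.PHG.Proj

/-!
# L14: polylogarithmic space is not contained in `PSPACE^A`, the covers
-/

namespace Pool.Agent.H752.PL

open Pool.Agent.NPC Pool.Agent.H620R2.Gauge Finset H568R2 Pool.Agent.H752.GE Filter

namespace Rev226

/-- the code strings of the test language -/
def yc (x : List Bool) : List Bool := codeS (fun _ m => 2 ^ ((Nat.log 2 m + 0 + 1) ^ 2)) 0 x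

theorem mem_H2 (A : Oracle) (x : List Bool) : x ∈ H2 A ↔ A (yc x) = true := Iff.rfl

theorem length_yc (x : List Bool) :
    (yc x).length = 2 ^ ((Nat.log 2 x.length + 1) ^ 2) + x.length + 2 := by
  unfold yc codeS
  simp only [List.length_append, List.length_replicate, List.length_cons]
  simp only [Nat.add_zero]
  omega

theorem yc_inj {x x' : List Bool} (hl : x.length = x'.length) (h : yc x = yc x') : x = x' := by
  unfold yc codeS at h
  rw [hl] at h
  have h1 := List.append_cancel_left h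
  rw [List.cons.injEq] at h1
  have h2 := List.append_cancel_left h1.2
  rw [List.cons.injEq] at h2
  exact h2.2

/-- the event -/
def EvR (V : Oracle → List Bool → Prop) (n N : ℕ) (σ : Fin N → Bool) : Prop :=
  ∀ j : Fin (2 ^ n), (orc N σ (yc (bitsOf n j)) = true ↔ V (orc N σ) (bitsOf n j))

theorem idx_yc_lt {n N : ℕ} (hN : 2 ^ (2 ^ ((Nat.log 2 n + 1) ^ 2) + n + 4) ≤ N) (j : ℕ) :
    idx (yc (bitsOf n j)) < N := by
  have h1 := idx_lt (yc (bitsOf n j))
  rw [length_yc, length_bitsOf] at h1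
  have h2 : 2 ^ (2 ^ ((Nat.log 2 n + 1) ^ 2) + n + 2 + 1) ≤
      2 ^ (2 ^ ((Nat.log 2 n + 1) ^ 2) + n + 4) := Nat.pow_le_pow_right (by norm_num) (by omega)
  omega

theorem idx_inj {y y' : List Bool} (h : idx y = idx y') : y = y' := by
  rw [← str_idx y, ← str_idx y', h]

/-- the places of the code strings -/
def pl {n N : ℕ} (hN : 2 ^ (2 ^ ((Nat.log 2 n + 1) ^ 2) + n + 4) ≤ N) (j : Fin (2 ^ n)) : Fin N :=
  ⟨idx (yc (bitsOf n j)), idx_yc_lt hN j⟩

theorem pl_inj {n N : ℕ} (hN : 2 ^ (2 ^ ((Nat.log 2 n + 1) ^ 2) + n + 4) ≤ N) :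
    Function.Injective (pl hN) := by
  intro j j' h
  have h1 := idx_inj (Fin.ext_iff.1 h)
  have h2 := yc_inj (by rw [length_bitsOf, length_bitsOf]) h1
  exact Fin.ext (bitsOf_inj j.2 j'.2 h2)

open Pool.Agent.H591R3.PHG.Proj in
theorem orc_owr_code {n N : ℕ} (hN : 2 ^ (2 ^ ((Nat.log 2 n + 1) ^ 2) + n + 4) ≤ N)
    (a : Fin N → Bool) (z : Fin (2 ^ n) → Bool) (j : Fin (2 ^ n)) :
    orc N (owr (pl hN) a z) (yc (bitsOf n j)) = z j := by
  unfold orc
  rw [dif_pos (idx_yc_lt hN j)]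
  exact owr_e (pl_inj hN) a z j

open Pool.Agent.H591R3.PHG.Proj in
theorem orc_owr_short {n N : ℕ} (hN : 2 ^ (2 ^ ((Nat.log 2 n + 1) ^ 2) + n + 4) ≤ N)
    (a : Fin N → Bool) (z : Fin (2 ^ n) → Bool) {w : List Bool}
    (hw : w.length ≤ 2 ^ ((Nat.log 2 n + 1) ^ 2)) :
    orc N (owr (pl hN) a z) w = orc N a w := by
  unfold orc
  by_cases h : idx w < N
  · rw [dif_pos h, dif_pos h]
    refine owr_off a z ?_
    rintro ⟨j, hj⟩
    have h1 := idx_inj (Fin.ext_iff.1 hj)
    have h2 := length_yc (bitsOf n j)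
    rw [h1, length_bitsOf] at h2
    omega
  · rw [dif_neg h, dif_neg h]

open Classical in
open Pool.Agent.H591R3.PHG Pool.Agent.H591R3.PHG.Proj in
theorem prob {V : Oracle → List Bool → Prop} {q : Polynomial ℕ}
    (hV : ∀ A A' x, (∀ z : List Bool, z.length ≤ q.eval x.length → A z = A' z) →
      (V A x ↔ V A' x)) {n N : ℕ} (hq : q.eval n + 1 ≤ 2 ^ ((Nat.log 2 n + 1) ^ 2))
    (hN : 2 ^ (2 ^ ((Nat.log 2 n + 1) ^ 2) + n + 4) ≤ N) :
    Ex unif (fun σ : Fin N → Bool => if EvR V n N σ then (1 : ℝ) else 0) ≤ (1 / 2) ^ (2 ^ n) := by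
  rw [Ex_overwrite (pl hN) (pl_inj hN)]
  have hu : ∑ a, (unif : Bool → ℝ) a = 1 := by
    unfold unif
    simp
  have hkey : ∀ Ψ : (Fin N → Bool) → ℝ, (∀ a, Ψ a = (1 / 2) ^ (2 ^ n)) →
      Ex unif Ψ ≤ (1 / 2) ^ (2 ^ n) := by
    intro Ψ h
    rw [show Ψ = fun _ => (1 / 2 : ℝ) ^ (2 ^ n) from funext h, Ex_const hu]
  refine hkey _ fun a => ?_
  have h1 : ∀ z : Fin (2 ^ n) → Bool, EvR V n N (owr (pl hN) a z) ↔
      z = fun j : Fin (2 ^ n) => decide (V (orc N a) (bitsOf n j)) := by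
    intro z
    unfold EvR
    have h2 : ∀ j : Fin (2 ^ n), (V (orc N (owr (pl hN) a z)) (bitsOf n j) ↔
        V (orc N a) (bitsOf n j)) := by
      intro j
      refine hV _ _ _ fun w hw => orc_owr_short hN a z ?_
      rw [length_bitsOf] at hw
      omega
    simp only [orc_owr_code, h2]
    constructor
    · intro h
      funext j
      have := h j
      by_cases hz : z j = true
      · rw [hz, eq_comm, decide_eq_true_eq]
        exact this.1 hz
      · have hz' : z j = false := by simpa using hz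
        rw [hz', eq_comm, decide_eq_false_iff_not]
        exact fun h3 => hz (this.2 h3)
    · intro h j
      rw [h, decide_eq_true_eq]
  trans Ex (ber (1 / 2)) (fun z : Fin (2 ^ n) → Bool =>
    if z = (fun j : Fin (2 ^ n) => decide (V (orc N a) (bitsOf n j))) then (1 : ℝ) else 0)
  · refine congrArg (Ex (ber (1 / 2))) (funext fun z => ?_)
    refine if_congr ?_ rfl rfl
    rw [← h1 z]
    refine iff_of_eq (congrArg (EvR V n N) (funext fun i => ?_))
    unfold owr
    by_cases h : ∃ j, pl hN j = i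
    · rw [dif_pos h, dif_pos h]
    · rw [dif_neg h, dif_neg h]
  · unfold Ex
    rw [Finset.sum_eq_single (fun j : Fin (2 ^ n) => decide (V (orc N a) (bitsOf n j)))]
    · beta_reduce
      rw [if_pos rfl, mul_one]
      have hb : (ber (1 / 2) : Bool → ℝ) = fun _ => 1 / 2 := by
        funext b
        unfold ber
        cases b <;> norm_num
      rw [hb, Finset.prod_const, Finset.card_univ, Fintype.card_fin]
    · intro z _ hz
      beta_reduce
      rw [if_neg hz, mul_zero]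
    · intro h
      exact absurd (Finset.mem_univ _) h

theorem ev_of {V : Oracle → List Bool → Prop} {q : Polynomial ℕ}
    (hV : ∀ A A' x, (∀ z : List Bool, z.length ≤ q.eval x.length → A z = A' z) →
      (V A x ↔ V A' x)) {A : Oracle} (hA : ∀ x, x ∈ H2 A ↔ V A x)
    {n N : ℕ} (hq : q.eval n + 1 ≤ 2 ^ ((Nat.log 2 n + 1) ^ 2))
    (hN : 2 ^ (2 ^ ((Nat.log 2 n + 1) ^ 2) + n + 4) ≤ N) : EvR V n N (pre N A) := by
  intro j
  rw [orc_pre (idx_yc_lt hN j), ← mem_H2, hA]
  refine hV _ _ _ fun w hw => (orc_pre ?_).symm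
  rw [length_bitsOf] at hw
  have h1 := idx_lt w
  have h2 : 2 ^ (w.length + 1) ≤ 2 ^ (2 ^ ((Nat.log 2 n + 1) ^ 2) + n + 4) :=
    Nat.pow_le_pow_right (by norm_num) (by omega)
  omega

open Classical in
theorem card_of_Ex' {N : ℕ} (E : (Fin N → Bool) → Prop) :
    ((univ.filter E).card : ℝ) * 2 ^ (-(N : ℝ)) =
      Ex unif (fun a : Fin N → Bool => if E a then (1 : ℝ) else 0) := by
  unfold Ex unif
  simp only [Finset.prod_const, Finset.card_univ, Fintype.card_fin]
  rw [← Finset.mul_sum, Finset.sum_boole]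
  rw [Real.rpow_neg (by norm_num), Real.rpow_natCast]
  rw [mul_comm]
  congr 1
  rw [one_div, inv_pow]

theorem cover {V : Oracle → List Bool → Prop} {q : Polynomial ℕ}
    (hV : ∀ A A' x, (∀ z : List Bool, z.length ≤ q.eval x.length → A z = A' z) →
      (V A x ↔ V A' x)) (h13 : St_asy2) (f : ℕ → ℝ) (hf : CondL f) (δ : ℝ) (hδ : 0 < δ) :
    ∃ S : Set (List Bool), (∀ A : Oracle, (∀ x, x ∈ H2 A ↔ V A x) → ∃ σ ∈ S, Extends A σ) ∧
    ∑' σ : S, ENNReal.ofReal (2 ^ (f σ.1.length - σ.1.length)) ≤ ENNReal.ofReal δ := by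
  classical
  obtain ⟨n, N, _, hq, hN, hb⟩ := h13 f hf q δ hδ
  have hev := prob hV hq hN
  refine ⟨(fun a : Fin N → Bool => List.ofFn a) '' {a | EvR V n N a}, ?_, ?_⟩
  · intro A hA
    refine ⟨List.ofFn (pre N A), ⟨pre N A, ev_of hV hA hq hN, rfl⟩, ?_⟩
    intro i hi
    rw [List.getElem_ofFn]
    rfl
  · have hinj : Set.InjOn (fun a : Fin N → Bool => List.ofFn a) {a | EvR V n N a} :=
      fun a _ b _ h => List.ofFn_injective h
    rw [tsum_image (fun σ : List Bool => ENNReal.ofReal (2 ^ (f σ.length - σ.length))) hinj]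
    simp only [List.length_ofFn]
    rw [tsum_fintype, Finset.sum_const, nsmul_eq_mul, Finset.card_univ]
    rw [← ENNReal.ofReal_natCast, ← ENNReal.ofReal_mul (by positivity)]
    apply ENNReal.ofReal_le_ofReal
    have h1 : Fintype.card {a : Fin N → Bool | EvR V n N a} =
        (univ.filter (fun a : Fin N → Bool => EvR V n N a)).card := by
      rw [← Fintype.card_subtype]
      rfl
    have h2 := card_of_Ex' (fun a : Fin N → Bool => EvR V n N a)
    have h3 : (2 : ℝ) ^ (f N - N) = 2 ^ (-(N : ℝ)) * 2 ^ f N := by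
      rw [← Real.rpow_add (by norm_num)]; congr 1; ring
    rw [h1, h3, ← mul_assoc, h2]
    exact (mul_le_mul_of_nonneg_right hev (by positivity)).trans hb

end Rev226

theorem t_rev (h2 : St_vp) (h13 : St_asy2) : St_rev := by
  intro f hf O hO δ hδ
  obtain ⟨V, q, hV, hP⟩ := h2
  obtain ⟨δ', hδ', hsum⟩ := ENNReal.exists_pos_sum_of_countable
    (ENNReal.ofReal_pos.2 hδ).ne' ℕ
  choose S hS hSs using fun e : ℕ =>
    Rev226.cover (V := V e) (q := q e) (hV e) h13 f hf (δ' e) (by exact_mod_cast hδ' e)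
  refine ⟨⋃ e, S e, ?_, ?_⟩
  · intro A hA
    obtain ⟨e, he⟩ := hP A _ (hO A hA)
    obtain ⟨σ, hσ, hE⟩ := hS e A he
    exact ⟨σ, Set.mem_iUnion.2 ⟨e, hσ⟩, hE⟩
  · refine (ENNReal.tsum_iUnion_le_tsum (fun σ : List Bool =>
      ENNReal.ofReal (2 ^ (f σ.length - σ.length))) S).trans ?_
    refine (ENNReal.tsum_le_tsum hSs).trans ?_
    refine le_trans (le_of_eq ?_) hsum.le
    congr 1
    funext e
    exact ENNReal.ofReal_coe_nnreal

end Pool.Agent.H752.PL
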